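import Pool.Agent.H66.L.S8.H721R2.AnosovDef

set_option autoImplicit false

open scoped Manifold ContDiff Topology Bundle
open Set Filter Bundle

namespace Pool.Agent.H789R2.AN

open Pool.Agent.H721R2

variable {E : Type*} [NormedAddCommGroup E] [NormedSpace ℝ E]
  {M : Type*} [TopologicalSpace M] [ChartedSpace E M] [IsManifold 𝓘(ℝ, E) 1 M]

/-- The `C¹` diffeomorphism `f` is Anosov, with stable field `Es` and unstable field `Eu`: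
`TM = Es ⊕ Eu`, both fields are `Df`-invariant and, for some continuous norm `N` on `TM` and some
`C > 0`, `0 < l < 1`, `N(Dfⁿ v) ≤ C lⁿ N(v)` on `Es` and `N(Df⁻ⁿ v) ≤ C lⁿ N(v)` on `Eu`. -/
structure IsAnosov (f : Diffeomorph 𝓘(ℝ, E) 𝓘(ℝ, E) M M 1)
    (Es Eu : ∀ x : M, Submodule ℝ (TangentSpace 𝓘(ℝ, E) x)) : Prop where
  isCompl : ∀ x : M, IsCompl (Es x) (Eu x)
  map_s : InvariantField f Es
  map_u : InvariantField f Eu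
  rates : ∃ (N : TangentBundle 𝓘(ℝ, E) M → ℝ) (C l : ℝ), IsTangentNorm N ∧ 0 < C ∧ 0 < l ∧ l < 1 ∧
    (∀ (n : ℕ) (x : M), ∀ v ∈ Es x,
      N (tangentMap 𝓘(ℝ, E) 𝓘(ℝ, E) (f^[n]) ⟨x, v⟩) ≤ C * l ^ n * N ⟨x, v⟩) ∧
    (∀ (n : ℕ) (x : M), ∀ v ∈ Eu x,
      N (tangentMap 𝓘(ℝ, E) 𝓘(ℝ, E) (f.symm^[n]) ⟨x, v⟩) ≤ C * l ^ n * N ⟨x, v⟩)

end Pool.Agent.H789R2.AN
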