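import Pool.Agent.H66.L.S8.H789R2.AN.Span

set_option autoImplicit false

open Filter Topology Set Metric

namespace Pool.Agent.H789R2.AN

open Pool.Agent.H721R2

variable {X E : Type*} [MetricSpace X] [NormedAddCommGroup E] [InnerProductSpace ℝ E]

/-- Abstract form of the main theorem. -/
theorem abs_main [CompactSpace X] [ConnectedSpace X] {ι : Type*} (S : ι → HypSys X E)
    (e : X → E) (he : ∀ i x, (S i).e x = e x)
    (hconn : ∀ i j, Relation.EqvGen (fun i j =>
      (∀ x, (S i).g ((S j).g x) = (S j).g ((S i).g x)) ∧ ∀ x, (S i).Vu x ≤ (S j).Vu x) i j)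
    (hspan : ∀ i x, (S i).Vs x ⊔ (S i).Vu x ≤ ⨆ j, (S j).Vu x) (i : ι)
    (U V : Set X) (hU : IsOpen U) (hUn : U.Nonempty) (hV : IsOpen V) (hVn : V.Nonempty) :
    ∃ n : ℕ, ((S i).g^[n] '' U ∩ V).Nonempty := by
  have hLP : ∀ i, ∃ c, LP (S i).g c := fun i => exists_LP (S i)
  choose c hc using hLP
  have heq : ∀ i j, Tot (S i).g = Tot (S j).g := by
    intro i j
    have h := hconn i j
    induction h with
    | rel i j h =>
      obtain ⟨h1, h2⟩ := h
      exact (tot_eq (hc j) (hc i) h1
        (nested_WS (S i) (S j) (fun x => by rw [he, he]) h1 h2)).symm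
    | refl i => rfl
    | symm i j _ ih => exact ih.symm
    | trans i j k _ _ ih1 ih2 => exact ih1.trans ih2
  have hT : Tot (S i).g = univ := by
    have h1 : ∀ j, IsAtt (S j).g (Tot (S i).g) := fun j => by
      rw [heq i j]
      exact (tot_att (φ := (S j).g) (hc j) (fun _ => rfl)).1
    exact eq_univ_of_span S e he i (hspan i) (h1 i).closed (h1 i).nonempty
      (fun j => (h1 j).sat)
  exact transitive_of_unique (hc i) (unique_att (hc i) hT) U V hU hUn hV hVn

end Pool.Agent.H789R2.AN
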