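import Mathlib

set_option autoImplicit false

open Filter Topology Set

namespace Pool.Agent.H789R2.AN

section comb

variable {G J : Type*} [AddCommGroup G] [Finite J]

omit [AddCommGroup G] [Finite J] in
theorem pos_of_mul_pos_left' {x y : ℝ} (hx : 0 < x) (h : 0 < x * y) : 0 < y := by
  by_contra hy
  push Not at hy
  have := mul_nonneg hx.le (neg_nonneg.mpr hy)
  linarith

omit [AddCommGroup G] [Finite J] in
theorem pos_of_mul_pos_mul_pos {x y z : ℝ} (h1 : 0 < x * y) (h2 : 0 < y * z) : 0 < x * z := by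
  have hy : 0 < y ^ 2 := by
    have : y ≠ 0 := fun h => by rw [h, mul_zero] at h1; exact lt_irrefl _ h1
    positivity
  have h3 : 0 < y ^ 2 * (x * z) := by
    have := mul_pos h1 h2
    nlinarith
  exact pos_of_mul_pos_left' hy h3

/-- small perturbation of finitely many real numbers -/
theorem perturb (w p : J → ℝ) (hp : ∀ l, p l ≠ 0) : ∃ s > 0, ∀ l, w l + s * p l ≠ 0 ∧
    (w l ≠ 0 → 0 < w l * (w l + s * p l)) ∧ (w l = 0 → 0 < p l * (w l + s * p l)) := by
  have h1 : ∀ l, ∀ᶠ s : ℝ in 𝓝[>] 0, w l + s * p l ≠ 0 ∧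
      (w l ≠ 0 → 0 < w l * (w l + s * p l)) ∧ (w l = 0 → 0 < p l * (w l + s * p l)) := by
    intro l
    by_cases hw : w l = 0
    · filter_upwards [self_mem_nhdsWithin] with s hs
      have hs' : (0 : ℝ) < s := hs
      have h2 : 0 < p l * (w l + s * p l) := by
        rw [hw, zero_add]
        have : 0 < p l ^ 2 := by
          have := hp l
          positivity
        nlinarith
      exact ⟨fun h => by rw [h, mul_zero] at h2; exact lt_irrefl _ h2, fun h => absurd hw h,
        fun _ => h2⟩
    · have h2 : Tendsto (fun s : ℝ => w l * (w l + s * p l)) (𝓝 0) (𝓝 (w l * (w l + 0 * p l))) := by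
        apply Continuous.tendsto
        fun_prop
      have h3 : 0 < w l * (w l + 0 * p l) := by
        rw [zero_mul, add_zero]
        exact mul_self_pos.mpr hw
      filter_upwards [(h2.eventually (lt_mem_nhds h3)).filter_mono nhdsWithin_le_nhds] with s hs
      exact ⟨fun h => by rw [h, mul_zero] at hs; exact lt_irrefl _ hs, fun _ => hs,
        fun h => absurd h hw⟩
  obtain ⟨s, hs1, hs2⟩ := ((eventually_all.mpr h1).and self_mem_nhdsWithin).exists
  exact ⟨s, hs2, hs1⟩

/-- integral approximation of a real combination -/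
theorem approx (χ : J → G →+ ℝ) (a b e : G) (α β γ : ℝ)
    (hv : ∀ l, α * χ l a + β * χ l b + γ * χ l e ≠ 0) :
    ∃ c : G, ∀ l, 0 < (α * χ l a + β * χ l b + γ * χ l e) * χ l c := by
  have h1 : ∀ l, ∀ᶠ N : ℕ in atTop, 0 < (α * χ l a + β * χ l b + γ * χ l e) *
      χ l (⌊(N : ℝ) * α⌋ • a + ⌊(N : ℝ) * β⌋ • b + ⌊(N : ℝ) * γ⌋ • e) := by
    intro l
    set v := α * χ l a + β * χ l b + γ * χ l e with hvdef
    have hv0 : v ≠ 0 := hv l
    set K := |χ l a| + |χ l b| + |χ l e| with hK
    have hlim : Tendsto (fun N : ℕ => (N : ℝ) * |v|) atTop atTop :=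
      tendsto_natCast_atTop_atTop.atTop_mul_const (abs_pos.mpr hv0)
    filter_upwards [hlim.eventually_gt_atTop K] with N hN
    have e1 : χ l (⌊(N : ℝ) * α⌋ • a + ⌊(N : ℝ) * β⌋ • b + ⌊(N : ℝ) * γ⌋ • e) =
        ⌊(N : ℝ) * α⌋ * χ l a + ⌊(N : ℝ) * β⌋ * χ l b + ⌊(N : ℝ) * γ⌋ * χ l e := by
      simp [map_add, map_zsmul]
    rw [e1]
    have hfl : ∀ (t y : ℝ), |(⌊t⌋ : ℝ) * y - t * y| ≤ |y| := by
      intro t y
      rw [← sub_mul, abs_mul]
      have h2 : |(⌊t⌋ : ℝ) - t| ≤ 1 := by
        rw [abs_le]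
        have := Int.floor_le t
        have := Int.lt_floor_add_one t
        constructor <;> linarith
      calc |(⌊t⌋ : ℝ) - t| * |y| ≤ 1 * |y| := mul_le_mul_of_nonneg_right h2 (abs_nonneg _)
        _ = |y| := one_mul _
    have h3 := hfl (N * α) (χ l a)
    have h4 := hfl (N * β) (χ l b)
    have h5 := hfl (N * γ) (χ l e)
    set A := (⌊(N : ℝ) * α⌋ : ℝ) * χ l a
    set B := (⌊(N : ℝ) * β⌋ : ℝ) * χ l b
    set C := (⌊(N : ℝ) * γ⌋ : ℝ) * χ l e
    have h6 : |A + B + C - N * v| ≤ K := by
      have e2 : A + B + C - N * v = (A - N * α * χ l a) + (B - N * β * χ l b) +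
          (C - N * γ * χ l e) := by rw [hvdef]; ring
      rw [e2]
      refine (abs_add_le _ _).trans ?_
      have := abs_add_le (A - N * α * χ l a) (B - N * β * χ l b)
      linarith
    rw [abs_le] at h6
    rcases lt_or_gt_of_ne hv0 with hneg | hpos
    · rw [abs_of_neg hneg] at hN
      apply mul_pos_of_neg_of_neg hneg
      linarith [h6.2]
    · rw [abs_of_pos hpos] at hN
      apply mul_pos hpos
      linarith [h6.1]
  obtain ⟨N, hN⟩ := (eventually_all.mpr h1).exists
  exact ⟨_, hN⟩

theorem between (χ : J → G →+ ℝ)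
    (hTNS : ∀ i j, ∀ c : ℝ, 0 < c → ∃ a, χ i a ≠ -c * χ j a) (a b : G)
    (ha : ∀ l, χ l a ≠ 0) (hb : ∀ l, χ l b ≠ 0) (i j : J) (hia : 0 < χ i a) (hib : χ i b < 0)
    (hja : χ j a < 0) :
    ∃ c : G, (∀ l, χ l c ≠ 0) ∧ (∀ l, 0 < χ l a * χ l b → 0 < χ l a * χ l c) ∧
      0 < χ i c * χ j c := by
  set m := -χ i b with hm
  set n := χ i a with hn
  have hm0 : 0 < m := by rw [hm]; linarith
  set w : J → ℝ := fun l => m * χ l a + n * χ l b with hw
  have hwi : w i = 0 := by
    show -χ i b * χ i a + χ i a * χ i b = 0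
    ring
  -- sign of w for common indices
  have hwl : ∀ l, 0 < χ l a * χ l b → 0 < χ l a * w l := by
    intro l hl
    show 0 < χ l a * (m * χ l a + n * χ l b)
    have h1 : 0 < χ l a ^ 2 := by
      have := ha l
      positivity
    have h2 : 0 < n * (χ l a * χ l b) := mul_pos hia hl
    nlinarith
  have hwne : ∀ l, 0 < χ l a * χ l b → w l ≠ 0 := fun l hl h => by
    have := hwl l hl
    rw [h, mul_zero] at this
    exact lt_irrefl _ this
  -- reduction to a real combination
  suffices h : ∃ (e : G) (α β γ : ℝ), (∀ l, α * χ l a + β * χ l b + γ * χ l e ≠ 0) ∧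
      (∀ l, 0 < χ l a * χ l b → 0 < χ l a * (α * χ l a + β * χ l b + γ * χ l e)) ∧
      0 < (α * χ i a + β * χ i b + γ * χ i e) * (α * χ j a + β * χ j b + γ * χ j e) by
    obtain ⟨e, α, β, γ, h1, h2, h3⟩ := h
    obtain ⟨c, hc⟩ := approx χ a b e α β γ h1
    refine ⟨c, fun l hl => ?_, fun l hl => ?_, ?_⟩
    · have := hc l
      rw [hl, mul_zero] at this
      exact lt_irrefl _ this
    · exact pos_of_mul_pos_mul_pos (h2 l hl) (hc l)
    · have h4 := hc i
      have h5 := hc j
      have h6 : 0 < ((α * χ i a + β * χ i b + γ * χ i e) * (α * χ j a + β * χ j b + γ * χ j e)) *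
          (χ i c * χ j c) := by
        have := mul_pos h4 h5
        nlinarith
      exact pos_of_mul_pos_left' h3 h6
  by_cases hwj : w j = 0
  · -- use the hypothesis
    have hja' : 0 < -χ j a := by linarith
    obtain ⟨e, he⟩ := hTNS i j (n / (-χ j a)) (div_pos hia hja')
    set t := n / (-χ j a) with ht
    have ht0 : 0 < t := div_pos hia hja'
    have htj : t * χ j a = -n := by
      rw [ht, div_mul_eq_mul_div, div_eq_iff (ne_of_gt hja')]; ring
    -- choose σ
    obtain ⟨σ, hσ⟩ : ∃ σ : ℝ, 0 < (χ i e + σ * χ i a) * (χ j e + σ * χ j a) := by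
      refine ⟨(-χ i e + t * χ j e) / (2 * n), ?_⟩
      have e1 : χ i e + (-χ i e + t * χ j e) / (2 * n) * χ i a = (χ i e + t * χ j e) / 2 := by
        have : χ i a = n := rfl
        rw [this]
        have : (-χ i e + t * χ j e) / (2 * n) * n = (-χ i e + t * χ j e) / 2 := by field_simp
        rw [this]; ring
      have e2 : t * (χ j e + (-χ i e + t * χ j e) / (2 * n) * χ j a) =
          (χ i e + t * χ j e) / 2 := by
        have h1 : t * (χ j e + (-χ i e + t * χ j e) / (2 * n) * χ j a) =
          t * χ j e + (-χ i e + t * χ j e) / (2 * n) * (t * χ j a) := by ring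
        rw [h1, htj]
        have : (-χ i e + t * χ j e) / (2 * n) * (-n) = -((-χ i e + t * χ j e) / 2) := by
          field_simp
        rw [this]; ring
      rw [e1]
      have h3 : χ i e + t * χ j e ≠ 0 := fun h => he (by linarith)
      have h4 : 0 < ((χ i e + t * χ j e) / 2) * (t * (χ j e + (-χ i e + t * χ j e) / (2 * n) *
          χ j a)) := by
        rw [e2]
        have : (χ i e + t * χ j e) / 2 ≠ 0 := by
          intro h; apply h3; linarith
        exact mul_self_pos.mpr this
      have h5 : 0 < t * ((χ i e + t * χ j e) / 2 * (χ j e + (-χ i e + t * χ j e) / (2 * n) *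
          χ j a)) := by linarith
      exact pos_of_mul_pos_left' ht0 h5
    obtain ⟨s', hs'0, hs'⟩ := perturb (fun l => χ l e + σ * χ l a) (fun l => χ l a) ha
    obtain ⟨s, hs0, hs⟩ := perturb w (fun l => (χ l e + σ * χ l a) + s' * χ l a)
      (fun l => (hs' l).1)
    have hval : ∀ l, (m + s * (σ + s')) * χ l a + n * χ l b + s * χ l e =
        w l + s * ((χ l e + σ * χ l a) + s' * χ l a) := by
      intro l
      show _ = m * χ l a + n * χ l b + _
      ring
    refine ⟨e, m + s * (σ + s'), n, s, ?_, ?_, ?_⟩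
    · intro l
      rw [hval]
      exact (hs l).1
    · intro l hl
      rw [hval]
      have h1 := (hs l).2.1 (hwne l hl)
      exact pos_of_mul_pos_mul_pos (hwl l hl) h1
    · rw [hval, hval]
      have h1 := (hs i).2.2 hwi
      have h2 := (hs j).2.2 hwj
      have hne1 : χ i e + σ * χ i a ≠ 0 := fun h => by
        rw [h, zero_mul] at hσ; exact lt_irrefl _ hσ
      have hne2 : χ j e + σ * χ j a ≠ 0 := fun h => by
        rw [h, mul_zero] at hσ; exact lt_irrefl _ hσ
      have h3 := (hs' i).2.1 hne1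
      have h4 := (hs' j).2.1 hne2
      have h5 := pos_of_mul_pos_mul_pos h3 h1
      have h6 := pos_of_mul_pos_mul_pos h4 h2
      have h7 := mul_pos h5 h6
      have h8 : 0 < (χ i e + σ * χ i a) * (χ j e + σ * χ j a) *
          ((w i + s * (χ i e + σ * χ i a + s' * χ i a)) *
          (w j + s * (χ j e + σ * χ j a + s' * χ j a))) := by nlinarith
      exact pos_of_mul_pos_left' hσ h8
  · rcases lt_or_gt_of_ne hwj with hneg | hpos
    · -- w j < 0 : move towards b
      obtain ⟨s, hs0, hs⟩ := perturb w (fun l => χ l b) hb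
      have hval : ∀ l, m * χ l a + (n + s) * χ l b + 0 * χ l a = w l + s * χ l b := by
        intro l
        show _ = m * χ l a + n * χ l b + _
        ring
      refine ⟨a, m, n + s, 0, ?_, ?_, ?_⟩
      · intro l; rw [hval]; exact (hs l).1
      · intro l hl
        rw [hval]
        exact pos_of_mul_pos_mul_pos (hwl l hl) ((hs l).2.1 (hwne l hl))
      · rw [hval, hval]
        have h1 := (hs i).2.2 hwi
        have h2 := (hs j).2.1 hwj
        have h3 : w i + s * χ i b < 0 := by
          by_contra h; push Not at h; nlinarith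
        have h4 : w j + s * χ j b < 0 := by
          by_contra h; push Not at h; nlinarith
        exact mul_pos_of_neg_of_neg h3 h4
    · obtain ⟨s, hs0, hs⟩ := perturb w (fun l => χ l a) ha
      have hval : ∀ l, (m + s) * χ l a + n * χ l b + 0 * χ l a = w l + s * χ l a := by
        intro l
        show _ = m * χ l a + n * χ l b + _
        ring
      refine ⟨a, m + s, n, 0, ?_, ?_, ?_⟩
      · intro l; rw [hval]; exact (hs l).1
      · intro l hl
        rw [hval]
        exact pos_of_mul_pos_mul_pos (hwl l hl) ((hs l).2.1 (hwne l hl))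
      · rw [hval, hval]
        have h1 := (hs i).2.2 hwi
        have h2 := (hs j).2.1 hwj
        have h3 : 0 < w i + s * χ i a := by
          by_contra h; push Not at h; nlinarith
        have h4 : 0 < w j + s * χ j a := by
          by_contra h; push Not at h; nlinarith
        exact mul_pos h3 h4

end comb

end Pool.Agent.H789R2.AN
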