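import Pool.Agent.H66.L.S8.H721R2.Riem
import Pool.Agent.H66.L.S8.H789R2.AN.Abs

set_option autoImplicit false
set_option linter.unusedSectionVars false

open scoped Manifold ContDiff Topology
open Set Filter

namespace Pool.Agent.H789R2.AN

open Pool.Agent.H721R2

variable {E₀ : Type*} [NormedAddCommGroup E₀] [NormedSpace ℝ E₀] [FiniteDimensional ℝ E₀]
  {M : Type*} [MetricSpace M] [CompactSpace M] [ChartedSpace E₀ M] [IsManifold 𝓘(ℝ, E₀) 1 M]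
  {F : Type*} [NormedAddCommGroup F] [NormedSpace ℝ F]

theorem exists_hypSys' {e : M → F} (hiso : ∀ x y, dist x y = ‖e x - e y‖)
    (he : ContMDiff 𝓘(ℝ, E₀) 𝓘(ℝ, F) 1 e) (hinj : ∀ x, Function.Injective (dm E₀ e x))
    {f : M ≃ₜ M} {Es Eu : M → Submodule ℝ E₀} {C a b Ls Lu : ℝ}
    (h : EAnosov e f Es Eu C a b Ls Lu) (K : ℝ) (hK : 1 ≤ K)
    (hang : ∀ x, ∀ s ∈ Es x, ∀ u ∈ Eu x,
      ‖dm E₀ e x s‖ ≤ K * ‖dm E₀ e x (s + u)‖ ∧ ‖dm E₀ e x u‖ ≤ K * ‖dm E₀ e x (s + u)‖)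
    (N : ℕ) (hKa : K * (C * a ^ N) ≤ 1 / 16) (hKb : K * (C * b ^ N) ≤ 1 / 16) :
    ∃ S : HypSys M F, S.g = iterHomeo f N ∧ S.e = e ∧
      (∀ x, S.Vs x = (Es x).map (dm E₀ e x).toLinearMap) ∧
      (∀ x, S.Vu x = (Eu x).map (dm E₀ e x).toLinearMap) := by
  have hC := h.C_pos
  have hC0 : 0 < C := by linarith
  have hsm := iter_smooth f h.smooth N
  have hsm' := iter_smooth f.symm h.smooth' N
  have hleft : ∀ x, ∃ L : F →ₗ[ℝ] E₀, ∀ v, L (dm E₀ e x v) = v := by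
    intro x
    obtain ⟨L, hL⟩ := LinearMap.exists_leftInverse_of_injective (dm E₀ e x).toLinearMap
      (LinearMap.ker_eq_bot.mpr (hinj x))
    exact ⟨L, fun v => LinearMap.congr_fun hL v⟩
  choose L hL using hleft
  let D : M → F →ₗ[ℝ] F := fun x =>
    (dm E₀ e (f^[N] x)).toLinearMap ∘ₗ (dg E₀ (f^[N]) x).toLinearMap ∘ₗ L x
  let D' : M → F →ₗ[ℝ] F := fun x =>
    (dm E₀ e (f.symm^[N] x)).toLinearMap ∘ₗ (dg E₀ (f.symm^[N]) x).toLinearMap ∘ₗ L x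
  have hD : ∀ x v, D x (dm E₀ e x v) = dm E₀ e (f^[N] x) (dg E₀ (f^[N]) x v) := by
    intro x v
    show dm E₀ e (f^[N] x) (dg E₀ (f^[N]) x (L x (dm E₀ e x v))) = _
    rw [hL]
  have hD' : ∀ x v, D' x (dm E₀ e x v) = dm E₀ e (f.symm^[N] x) (dg E₀ (f.symm^[N]) x v) := by
    intro x v
    show dm E₀ e (f.symm^[N] x) (dg E₀ (f.symm^[N]) x (L x (dm E₀ e x v))) = _
    rw [hL]
  let Vs : M → Submodule ℝ F := fun x => (Es x).map (dm E₀ e x).toLinearMap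
  let Vu : M → Submodule ℝ F := fun x => (Eu x).map (dm E₀ e x).toLinearMap
  have hVs : ∀ x w, w ∈ Vs x ↔ ∃ v ∈ Es x, dm E₀ e x v = w := fun x w => Iff.rfl
  have hVu : ∀ x w, w ∈ Vu x ↔ ∃ v ∈ Eu x, dm E₀ e x v = w := fun x w => Iff.rfl
  have hdist : ∀ x y, ‖e y - e x‖ = dist x y := fun x y => by rw [hiso, norm_sub_rev]
  have hC1 : ∀ L : ℝ, 1 ≤ L → 1 ≤ C * L ^ N := by
    intro L hL
    have := one_le_pow₀ hL (n := N)
    nlinarith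
  refine ⟨{
    e := e
    isom := hiso
    g := iterHomeo f N
    Vs := Vs
    Vu := Vu
    D := D
    D' := D'
    a := C * a ^ N
    b := C * b ^ N
    Ls := C * Ls ^ N
    Lu := C * Lu ^ N
    K := K
    a_nonneg := mul_nonneg hC0.le (pow_nonneg h.a_pos.le _)
    b_nonneg := mul_nonneg hC0.le (pow_nonneg h.b_pos.le _)
    one_le_Ls := hC1 _ h.Ls_le
    one_le_Lu := hC1 _ h.Lu_le
    one_le_K := hK
    Ka := hKa
    Kb := hKb
    mapS := ?_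
    mapU := ?_
    mapS' := ?_
    mapU' := ?_
    invS := ?_
    invU := ?_
    invS' := ?_
    invU' := ?_
    contrS := ?_
    contrU := ?_
    boundS := ?_
    boundU := ?_
    angle := ?_
    A1 := ?_
    A1' := ?_
    A2 := ?_
    A3 := ?_
    A3' := ?_ }, rfl, rfl, fun _ => rfl, fun _ => rfl⟩
  · rintro x w ⟨v, hv, rfl⟩
    exact ⟨_, h.mapS N x v hv, (hD x v).symm⟩
  · rintro x w ⟨v, hv, rfl⟩
    exact ⟨_, h.mapU N x v hv, (hD x v).symm⟩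
  · rintro x w ⟨v, hv, rfl⟩
    exact ⟨_, h.mapS' N x v hv, (hD' x v).symm⟩
  · rintro x w ⟨v, hv, rfl⟩
    exact ⟨_, h.mapU' N x v hv, (hD' x v).symm⟩
  · rintro x w ⟨v, hv, rfl⟩
    change D' (f^[N] x) (D x (dm E₀ e x v)) = dm E₀ e x v
    rw [hD, hD', dg_inv _ _ hsm hsm' (iter_left f N), iter_left]
  · rintro x w ⟨v, hv, rfl⟩
    change D' (f^[N] x) (D x (dm E₀ e x v)) = dm E₀ e x v
    rw [hD, hD', dg_inv _ _ hsm hsm' (iter_left f N), iter_left]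
  · rintro x w ⟨v, hv, rfl⟩
    change D (f.symm^[N] x) (D' x (dm E₀ e x v)) = dm E₀ e x v
    rw [hD', hD, dg_inv _ _ hsm' hsm (iter_right f N), iter_right]
  · rintro x w ⟨v, hv, rfl⟩
    change D (f.symm^[N] x) (D' x (dm E₀ e x v)) = dm E₀ e x v
    rw [hD', hD, dg_inv _ _ hsm' hsm (iter_right f N), iter_right]
  · rintro x w ⟨v, hv, rfl⟩
    change ‖D x (dm E₀ e x v)‖ ≤ C * a ^ N * ‖dm E₀ e x v‖
    rw [hD]; exact h.hS N x v hv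
  · rintro x w ⟨v, hv, rfl⟩
    change ‖D' x (dm E₀ e x v)‖ ≤ C * b ^ N * ‖dm E₀ e x v‖
    rw [hD']; exact h.hU' N x v hv
  · rintro x w ⟨v, hv, rfl⟩
    change ‖D' x (dm E₀ e x v)‖ ≤ C * Ls ^ N * ‖dm E₀ e x v‖
    rw [hD']; exact h.hS' N x v hv
  · rintro x w ⟨v, hv, rfl⟩
    change ‖D x (dm E₀ e x v)‖ ≤ C * Lu ^ N * ‖dm E₀ e x v‖
    rw [hD]; exact h.hU N x v hv
  · rintro x w ⟨v, hv, rfl⟩ w' ⟨v', hv', rfl⟩
    have := hang x v hv v' hv'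
    rw [map_add] at this
    exact this
  · intro η hη
    have hP : ∃ r > 0, ∀ x y, dist x y < r → ∃ v : E₀,
        ‖e y - e x - dm E₀ e x v‖ ≤ η * ‖e y - e x‖ ∧
        ‖e (f^[N] y) - e (f^[N] x) - dm E₀ e (f^[N] x) (dg E₀ (f^[N]) x v)‖ ≤
          η * ‖e y - e x‖ := by
      apply exists_uniform_radius
      intro x₀
      obtain ⟨-, h1⟩ := local_all e he hinj (e ∘ f^[N]) (he.comp hsm) x₀
      obtain ⟨W, hW, r, hr, h2, -, -⟩ := h1 η hη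
      refine ⟨W, hW, fun x hx y hy => ?_⟩
      obtain ⟨v, h3, h4⟩ := h2 x hx y hy
      rw [dm_comp e he _ hsm] at h4
      exact ⟨v, h3, h4⟩
    obtain ⟨r, hr, hP⟩ := hP
    refine ⟨r, hr, fun x y hxy => ?_⟩
    obtain ⟨v, h1, h2⟩ := hP x y hxy
    obtain ⟨s, hs, u, hu, hsu⟩ := h.decomp x v
    refine ⟨dm E₀ e x s, ⟨s, hs, rfl⟩, dm E₀ e x u, ⟨u, hu, rfl⟩, ?_, ?_⟩
    · rw [← map_add, hsu, ← hdist]; exact h1
    · rw [← map_add, hsu, hD, ← hdist]; exact h2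
  · intro η hη
    have hP : ∃ r > 0, ∀ x y, dist x y < r → ∃ v : E₀,
        ‖e y - e x - dm E₀ e x v‖ ≤ η * ‖e y - e x‖ ∧
        ‖e (f.symm^[N] y) - e (f.symm^[N] x) -
          dm E₀ e (f.symm^[N] x) (dg E₀ (f.symm^[N]) x v)‖ ≤ η * ‖e y - e x‖ := by
      apply exists_uniform_radius
      intro x₀
      obtain ⟨-, h1⟩ := local_all e he hinj (e ∘ f.symm^[N]) (he.comp hsm') x₀
      obtain ⟨W, hW, r, hr, h2, -, -⟩ := h1 η hη
      refine ⟨W, hW, fun x hx y hy => ?_⟩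
      obtain ⟨v, h3, h4⟩ := h2 x hx y hy
      rw [dm_comp e he _ hsm'] at h4
      exact ⟨v, h3, h4⟩
    obtain ⟨r, hr, hP⟩ := hP
    refine ⟨r, hr, fun x y hxy => ?_⟩
    obtain ⟨v, h1, h2⟩ := hP x y hxy
    obtain ⟨s, hs, u, hu, hsu⟩ := h.decomp x v
    refine ⟨dm E₀ e x s, ⟨s, hs, rfl⟩, dm E₀ e x u, ⟨u, hu, rfl⟩, ?_, ?_⟩
    · rw [← map_add, hsu, ← hdist]; exact h1
    · rw [← map_add, hsu, hD', ← hdist]; exact h2
  · intro η hη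
    have hP : ∃ r > 0, ∀ x : M, ∀ v : E₀, ‖dm E₀ e x v‖ < r →
        ∃ y, ‖e y - e x - dm E₀ e x v‖ ≤ η * ‖dm E₀ e x v‖ := by
      apply exists_uniform_small (fun r x => ∀ v : E₀, ‖dm E₀ e x v‖ < r →
        ∃ y, ‖e y - e x - dm E₀ e x v‖ ≤ η * ‖dm E₀ e x v‖)
      · intro C C' x hCC' hx v hv
        exact hx v (by linarith)
      · intro x₀
        obtain ⟨-, h1⟩ := local_all e he hinj e he x₀
        obtain ⟨W, hW, r, hr, -, h2, -⟩ := h1 η hη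
        refine ⟨r, hr, ?_⟩
        filter_upwards [hW] with x hx
        exact h2 x hx
    obtain ⟨r, hr, hP⟩ := hP
    refine ⟨r, hr, ?_⟩
    rintro x w ⟨v, hv, rfl⟩ w' ⟨v', hv', rfl⟩ hlt
    change ‖dm E₀ e x v + dm E₀ e x v'‖ < r at hlt
    change ∃ y, ‖e y - e x - (dm E₀ e x v + dm E₀ e x v')‖ ≤ η * ‖dm E₀ e x v + dm E₀ e x v'‖
    rw [← map_add] at hlt ⊢
    exact hP x _ hlt
  · intro η hη
    obtain ⟨r, hr, hP⟩ := h.contS he hinj η hη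
    refine ⟨r, hr, ?_⟩
    rintro x y hxy w ⟨v, hv, rfl⟩
    obtain ⟨v', hv', h1⟩ := hP x y hxy v hv
    exact ⟨_, ⟨v', hv', rfl⟩, h1⟩
  · intro η hη
    obtain ⟨r, hr, hP⟩ := h.symm.contS he hinj η hη
    refine ⟨r, hr, ?_⟩
    rintro x y hxy w ⟨v, hv, rfl⟩
    obtain ⟨v', hv', h1⟩ := hP x y hxy v hv
    exact ⟨_, ⟨v', hv', rfl⟩, h1⟩


end Pool.Agent.H789R2.AN
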