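import Pool.Agent.H66.L.S8.H789R2.AN.Top

set_option autoImplicit false

open Filter Topology Set Metric

namespace Pool.Agent.H789R2.AN

variable {X : Type*} [MetricSpace X]

/-- Minimal attractors. -/
def MinAtt (g : X ≃ₜ X) (A : Set X) : Prop := IsAtt g A ∧ ∀ B, IsAtt g B → B ⊆ A → A ⊆ B

theorem exists_minAtt [CompactSpace X] {g : X ≃ₜ X} {A : Set X} (hA : IsAtt g A) :
    ∃ B ⊆ A, MinAtt g B := by
  obtain ⟨B, hB⟩ := zorn_superset {B : Set X | IsAtt g B ∧ B ⊆ A} (by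
    intro C hC hchain
    by_cases hne : C.Nonempty
    · refine ⟨⋂₀ C, ⟨⟨?_, ?_, ?_, ?_⟩, ?_⟩, fun s hs => sInter_subset_of_mem hs⟩
      · exact isClosed_sInter fun s hs => (hC hs).1.closed
      · have := hne.to_subtype
        refine IsCompact.nonempty_sInter_of_directed_nonempty_isCompact_isClosed ?_ ?_ ?_ ?_
        · exact IsChain.directedOn hchain.symm
        · exact fun s hs => (hC hs).1.nonempty
        · exact fun s hs => (hC hs).1.closed.isCompact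
        · exact fun s hs => (hC hs).1.closed
      · intro x
        simp only [mem_sInter]
        exact forall₂_congr fun s hs => (hC hs).1.inv x
      · intro x hx y hxy s hs
        exact (hC hs).1.sat x (hx s hs) y hxy
      · obtain ⟨s, hs⟩ := hne
        exact (sInter_subset_of_mem hs).trans (hC hs).2
    · rw [not_nonempty_iff_eq_empty] at hne
      refine ⟨A, ⟨hA, Subset.rfl⟩, fun s hs => ?_⟩
      rw [hne] at hs
      exact absurd hs (notMem_empty s))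
  refine ⟨B, hB.prop.2, hB.prop.1, fun B' hB' hsub => ?_⟩
  exact hB.le_of_le ⟨hB', hsub.trans hB.prop.2⟩ hsub

theorem IsAtt.inter {g : X ≃ₜ X} {A B : Set X} (hA : IsAtt g A) (hB : IsAtt g B)
    (hne : (A ∩ B).Nonempty) : IsAtt g (A ∩ B) where
  closed := hA.closed.inter hB.closed
  nonempty := hne
  inv := fun x => by rw [mem_inter_iff, mem_inter_iff, hA.inv, hB.inv]
  sat := fun x hx y hxy => ⟨hA.sat x hx.1 y hxy, hB.sat x hx.2 y hxy⟩

theorem MinAtt.subset_of_meet {g : X ≃ₜ X} {A B : Set X} (hA : MinAtt g A) (hB : IsAtt g B)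
    (hne : (A ∩ B).Nonempty) : A ⊆ B :=
  (hA.2 _ (hA.1.inter hB hne) inter_subset_left).trans inter_subset_right

theorem MinAtt.eq_of_meet {g : X ≃ₜ X} {A B : Set X} (hA : MinAtt g A) (hB : MinAtt g B)
    (hne : (A ∩ B).Nonempty) : A = B :=
  (hA.subset_of_meet hB.1 hne).antisymm (hB.subset_of_meet hA.1 (by rwa [inter_comm]))

theorem LP.sep [CompactSpace X] {g : X ≃ₜ X} {c : ℝ} (h : LP g c) : ∃ δ > 0, ∀ A B,
    MinAtt g A → MinAtt g B → (∃ a ∈ A, ∃ b ∈ B, dist a b < δ) → A = B := by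
  obtain ⟨δ, hδ, hnear⟩ := h.near
  refine ⟨δ, hδ, ?_⟩
  rintro A B hA hB ⟨a, ha, b, hb, hab⟩
  apply hA.eq_of_meet hB
  by_contra hne
  rw [not_nonempty_iff_eq_empty, ← disjoint_iff_inter_eq_empty] at hne
  obtain ⟨ρ, hρ, h1⟩ := exists_pos_forall_lt_edist hA.1.closed.isCompact hB.1.closed hne
  obtain ⟨z, hz, h2⟩ := hnear B hB.1 b hb a hab
  have h3 : WS g a z := WS.of_SR (h.cS _ _ h2)
  obtain ⟨m, hm⟩ := h3.eventually_lt (ε := ρ) (by exact_mod_cast hρ)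
  have h4 := h1 _ ((inv_iter hA.1.inv m a).mpr ha) _ ((inv_iter hB.1.inv m z).mpr hz)
  rw [edist_dist, ← ENNReal.ofReal_coe_nnreal,
    ENNReal.ofReal_lt_ofReal_iff_of_nonneg ρ.coe_nonneg] at h4
  exact absurd (hm m le_rfl) (not_lt.mpr h4.le)

theorem isClosed_sUnion_sep (F : Set (Set X)) (hc : ∀ A ∈ F, IsClosed A) (δ : ℝ) (hδ : 0 < δ)
    (hsep : ∀ A ∈ F, ∀ B ∈ F, (∃ a ∈ A, ∃ b ∈ B, dist a b < δ) → A = B) : IsClosed (⋃₀ F) := by
  rw [← closure_subset_iff_isClosed]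
  intro x hx
  rw [Metric.mem_closure_iff] at hx
  obtain ⟨y, ⟨A, hA, hy⟩, hxy⟩ := hx (δ / 2) (half_pos hδ)
  refine ⟨A, hA, ?_⟩
  rw [← (hc A hA).closure_eq, Metric.mem_closure_iff]
  intro ε hε
  obtain ⟨y', ⟨A', hA', hy'⟩, hxy'⟩ := hx (min ε (δ / 2)) (lt_min hε (half_pos hδ))
  have h1 : dist x y' < ε := lt_of_lt_of_le hxy' (min_le_left _ _)
  have h2 : dist x y' < δ / 2 := lt_of_lt_of_le hxy' (min_le_right _ _)
  have h3 : A = A' := by
    apply hsep A hA A' hA' ⟨y, hy, y', hy', ?_⟩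
    have := dist_triangle y x y'
    rw [dist_comm y x] at this
    linarith
  rw [h3]
  exact ⟨y', hy', h1⟩

theorem MinAtt.preimage [CompactSpace X] {g φ : X ≃ₜ X} (hc : ∀ x, φ (g x) = g (φ x))
    {A : Set X} (hA : MinAtt g A) : MinAtt g (φ ⁻¹' A) := by
  have key : ∀ (ψ : X ≃ₜ X) (_ : ∀ x, ψ (g x) = g (ψ x)) (B : Set X), IsAtt g B →
      IsAtt g (ψ ⁻¹' B) := by
    intro ψ hψ B hB
    refine ⟨hB.closed.preimage ψ.continuous, ?_, ?_, ?_⟩
    · obtain ⟨b, hb⟩ := hB.nonempty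
      exact ⟨ψ.symm b, by rwa [mem_preimage, ψ.apply_symm_apply]⟩
    · intro x
      rw [mem_preimage, mem_preimage, hψ, hB.inv]
    · intro x hx y hxy
      exact hB.sat (ψ x) hx (ψ y) (hxy.map (comm_symm_right hψ))
  refine ⟨key φ hc A hA.1, fun B hB hsub => ?_⟩
  have h1 := key φ.symm (comm_symm_left hc) B hB
  have h2 : A ⊆ φ.symm ⁻¹' B := by
    apply hA.2 _ h1
    intro x hx
    have h3 := hsub hx
    rwa [mem_preimage, φ.apply_symm_apply] at h3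
  intro x hx
  have h3 := h2 hx
  rwa [mem_preimage, φ.symm_apply_apply] at h3

/-- The union of all minimal attractors. -/
def Tot (g : X ≃ₜ X) : Set X := ⋃₀ {A | MinAtt g A}

/-- Unions of minimal attractors avoiding a `φ`-invariant set. -/
theorem sub_att [CompactSpace X] {g φ : X ≃ₜ X} {c : ℝ} (h : LP g c)
    (hc : ∀ x, φ (g x) = g (φ x)) (T : Set X) (hT : ∀ x, φ x ∈ T ↔ x ∈ T)
    (hne : (⋃₀ {A | MinAtt g A ∧ Disjoint A T}).Nonempty) :
    IsAtt g (⋃₀ {A | MinAtt g A ∧ Disjoint A T}) ∧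
      ∀ x, φ x ∈ ⋃₀ {A | MinAtt g A ∧ Disjoint A T} ↔ x ∈ ⋃₀ {A | MinAtt g A ∧ Disjoint A T} := by
  obtain ⟨δ, hδ, hsep⟩ := h.sep
  have key : ∀ (ψ : X ≃ₜ X) (_ : ∀ x, ψ (g x) = g (ψ x)) (_ : ∀ x, ψ x ∈ T ↔ x ∈ T) (x : X),
      ψ x ∈ ⋃₀ {A | MinAtt g A ∧ Disjoint A T} → x ∈ ⋃₀ {A | MinAtt g A ∧ Disjoint A T} := by
    rintro ψ hψ hψT x ⟨A, ⟨hA, hAT⟩, hx⟩
    refine ⟨ψ ⁻¹' A, ⟨hA.preimage hψ, ?_⟩, hx⟩
    rw [Set.disjoint_left] at hAT ⊢
    intro y hy hyT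
    exact hAT hy ((hψT y).mpr hyT)
  refine ⟨⟨?_, hne, ?_, ?_⟩, fun x => ⟨key φ hc hT x, fun hx => ?_⟩⟩
  · exact isClosed_sUnion_sep _ (fun A hA => hA.1.1.closed) δ hδ
      (fun A hA B hB hd => hsep A B hA.1 hB.1 hd)
  · intro x
    constructor
    · rintro ⟨A, hA, hx⟩
      exact ⟨A, hA, (hA.1.1.inv x).mp hx⟩
    · rintro ⟨A, hA, hx⟩
      exact ⟨A, hA, (hA.1.1.inv x).mpr hx⟩
  · rintro x ⟨A, hA, hx⟩ y hxy
    exact ⟨A, hA, hA.1.1.sat x hx y hxy⟩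
  · apply key φ.symm (comm_symm_left hc) (inv_symm hT)
    rwa [φ.symm_apply_apply]

theorem tot_att [CompactSpace X] [Nonempty X] {g φ : X ≃ₜ X} {c : ℝ} (h : LP g c)
    (hc : ∀ x, φ (g x) = g (φ x)) : IsAtt g (Tot g) ∧ ∀ x, φ x ∈ Tot g ↔ x ∈ Tot g := by
  have e : Tot g = ⋃₀ {A | MinAtt g A ∧ Disjoint A ∅} := by
    simp [Tot]
  rw [e]
  apply sub_att h hc ∅ (fun x => Iff.rfl)
  rw [← e]
  have huniv : IsAtt g (univ : Set X) :=
    ⟨isClosed_univ, univ_nonempty, fun x => by simp, fun _ _ _ _ => mem_univ _⟩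
  obtain ⟨B, -, hB⟩ := exists_minAtt huniv
  obtain ⟨b, hb⟩ := hB.1.nonempty
  exact ⟨b, B, hB, hb⟩

/-- **Commuting homeomorphisms with nested unstable sets have the same total attractor.** -/
theorem tot_eq [CompactSpace X] [Nonempty X] {f h : X ≃ₜ X} {cf ch : ℝ} (hf : LP f cf)
    (hh : LP h ch) (hc : ∀ x, h (f x) = f (h x)) (hsub : ∀ x y, WS h.symm x y → WS f.symm x y) :
    Tot f = Tot h := by
  have hc' : ∀ x, f (h x) = h (f x) := fun x => (hc x).symm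
  -- translation between the two notions
  have h2f : ∀ A, IsAtt h A → (∀ x, f x ∈ A ↔ x ∈ A) → IsAtt f A := by
    intro A hA hfA
    refine ⟨hA.closed, hA.nonempty, hfA, ?_⟩
    exact theoremA hh (comm_symm_left hc') hsub hA (inv_symm hfA)
  have f2h : ∀ A, IsAtt f A → (∀ x, h x ∈ A ↔ x ∈ A) → IsAtt h A := by
    intro A hA hhA
    exact ⟨hA.closed, hA.nonempty, hhA, fun x hx y hxy => hA.sat x hx y (hsub x y hxy)⟩
  obtain ⟨hTf, hTf'⟩ := tot_att hf hc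
  obtain ⟨hTh, hTh'⟩ := tot_att hh hc'
  have hThf : IsAtt f (Tot h) := h2f _ hTh hTh'
  have hTfh : IsAtt h (Tot f) := f2h _ hTf hTf'
  apply Subset.antisymm
  · rintro x ⟨A, hA, hx⟩
    by_contra hxT
    have hdisj : Disjoint A (Tot h) := by
      by_contra hnd
      rw [disjoint_iff_inter_eq_empty, ← not_nonempty_iff_eq_empty, not_not] at hnd
      exact hxT (hA.subset_of_meet hThf hnd hx)
    obtain ⟨hU, hU'⟩ := sub_att hf hc (Tot h) hTh.inv ⟨x, A, ⟨hA, hdisj⟩, hx⟩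
    obtain ⟨B, hBU, hB⟩ := exists_minAtt (f2h _ hU hU')
    obtain ⟨b, hb⟩ := hB.1.nonempty
    obtain ⟨A', ⟨-, hd⟩, hbA'⟩ := hBU hb
    exact (Set.disjoint_left.mp hd) hbA' ⟨B, hB, hb⟩
  · rintro x ⟨A, hA, hx⟩
    by_contra hxT
    have hdisj : Disjoint A (Tot f) := by
      by_contra hnd
      rw [disjoint_iff_inter_eq_empty, ← not_nonempty_iff_eq_empty, not_not] at hnd
      exact hxT (hA.subset_of_meet hTfh hnd hx)
    obtain ⟨hU, hU'⟩ := sub_att hh hc' (Tot f) hTf.inv ⟨x, A, ⟨hA, hdisj⟩, hx⟩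
    obtain ⟨B, hBU, hB⟩ := exists_minAtt (h2f _ hU hU')
    obtain ⟨b, hb⟩ := hB.1.nonempty
    obtain ⟨A', ⟨-, hd⟩, hbA'⟩ := hBU hb
    exact (Set.disjoint_left.mp hd) hbA' ⟨B, hB, hb⟩

/-- On a connected space, if the minimal attractors fill the space, there is only one. -/
theorem unique_att [CompactSpace X] [ConnectedSpace X] {g : X ≃ₜ X} {c : ℝ} (h : LP g c)
    (hT : Tot g = univ) : ∀ A, IsAtt g A → A = univ := by
  intro A hA
  obtain ⟨B, hBA, hB⟩ := exists_minAtt hA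
  obtain ⟨δ, hδ, hsep⟩ := h.sep
  have hBc : Bᶜ = ⋃₀ {A | MinAtt g A ∧ A ≠ B} := by
    ext x
    constructor
    · intro hx
      have : x ∈ Tot g := by rw [hT]; trivial
      obtain ⟨A, hA, hxA⟩ := this
      exact ⟨A, ⟨hA, fun he => hx (he ▸ hxA)⟩, hxA⟩
    · rintro ⟨A, ⟨hA, hne⟩, hxA⟩ hxB
      exact hne (hA.eq_of_meet hB ⟨x, hxA, hxB⟩)
  have hopen : IsOpen B := by
    rw [← isClosed_compl_iff, hBc]
    exact isClosed_sUnion_sep _ (fun A hA => hA.1.1.closed) δ hδ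
      (fun A hA B hB hd => hsep A B hA.1 hB.1 hd)
  have : B = univ := IsClopen.eq_univ ⟨hB.1.closed, hopen⟩ hB.1.nonempty
  rw [this] at hBA
  exact univ_subset_iff.mp hBA

end Pool.Agent.H789R2.AN
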