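import Pool.Agent.H66.L.S8.H789R2.AN.Comb
import Pool.Agent.H66.L.S8.H789R2.AN.Man

set_option autoImplicit false

open scoped Manifold ContDiff Topology Bundle
open Set Filter Bundle

namespace Pool.Agent.H789R2.AN

open Pool.Agent.H721R2

section conn

variable {G J : Type*} [AddCommGroup G] [Finite J]

/-- Any two regular elements are linked by a chain with monotone sign changes. -/
theorem reg_conn (χ : J → G →+ ℝ) (hTNS : ∀ i j, ∀ c : ℝ, 0 < c → ∃ a, χ i a ≠ -c * χ j a) :
    ∀ a b : {a : G // ∀ l, χ l a ≠ 0},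
      Relation.EqvGen (fun a b : {a : G // ∀ l, χ l a ≠ 0} =>
        ∀ l, 0 < χ l a.1 → 0 < χ l b.1) a b := by
  have key : ∀ n : ℕ, ∀ a b : {a : G // ∀ l, χ l a ≠ 0},
      {l | χ l a.1 * χ l b.1 < 0}.ncard ≤ n →
      Relation.EqvGen (fun a b : {a : G // ∀ l, χ l a ≠ 0} =>
        ∀ l, 0 < χ l a.1 → 0 < χ l b.1) a b := by
    intro n
    induction n with
    | zero =>
      intro a b hab
      have h1 : {l | χ l a.1 * χ l b.1 < 0} = ∅ :=
        (Set.ncard_eq_zero (Set.toFinite _)).mp (Nat.le_zero.mp hab)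
      apply Relation.EqvGen.rel
      intro l hl
      by_contra h
      have h2 : χ l b.1 < 0 := lt_of_le_of_ne (not_lt.mp h) (b.2 l)
      have h3 : l ∈ {l | χ l a.1 * χ l b.1 < 0} := mul_neg_of_pos_of_neg hl h2
      rw [h1] at h3
      exact h3
    | succ n ih =>
      intro a b hab
      by_cases h1 : ∀ l, 0 < χ l a.1 → 0 < χ l b.1
      · exact Relation.EqvGen.rel _ _ h1
      by_cases h2 : ∀ l, 0 < χ l b.1 → 0 < χ l a.1
      · exact Relation.EqvGen.symm _ _ (Relation.EqvGen.rel _ _ h2)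
      push Not at h1 h2
      obtain ⟨i, hia, hib⟩ := h1
      obtain ⟨j, hjb, hja⟩ := h2
      have hib' : χ i b.1 < 0 := lt_of_le_of_ne hib (b.2 i)
      have hja' : χ j a.1 < 0 := lt_of_le_of_ne hja (a.2 j)
      obtain ⟨c, hc1, hc2, hc3⟩ := between χ hTNS a.1 b.1 a.2 b.2 i j hia hib' hja'
      have hiD : i ∈ {l | χ l a.1 * χ l b.1 < 0} := mul_neg_of_pos_of_neg hia hib'
      have hjD : j ∈ {l | χ l a.1 * χ l b.1 < 0} := mul_neg_of_neg_of_pos hja' hjb
      have hsub1 : {l | χ l a.1 * χ l c < 0} ⊆ {l | χ l a.1 * χ l b.1 < 0} := by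
        intro l hl
        have hl' : χ l a.1 * χ l c < 0 := hl
        by_contra h
        have h' : ¬ χ l a.1 * χ l b.1 < 0 := h
        have h3 : 0 < χ l a.1 * χ l b.1 :=
          lt_of_le_of_ne (not_lt.mp h') (mul_ne_zero (a.2 l) (b.2 l)).symm
        have h4 := hc2 l h3
        linarith
      have hsub2 : {l | χ l c * χ l b.1 < 0} ⊆ {l | χ l a.1 * χ l b.1 < 0} := by
        intro l hl
        have hl' : χ l c * χ l b.1 < 0 := hl
        by_contra h
        have h' : ¬ χ l a.1 * χ l b.1 < 0 := h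
        have h3 : 0 < χ l a.1 * χ l b.1 :=
          lt_of_le_of_ne (not_lt.mp h') (mul_ne_zero (a.2 l) (b.2 l)).symm
        have h4 := hc2 l h3
        have h5 : 0 < χ l c * χ l b.1 :=
          pos_of_mul_pos_mul_pos (y := χ l a.1) (by rwa [mul_comm] at h4) h3
        linarith
      have hss : {l | χ l a.1 * χ l c < 0} ⊂ {l | χ l a.1 * χ l b.1 < 0} ∧
          {l | χ l c * χ l b.1 < 0} ⊂ {l | χ l a.1 * χ l b.1 < 0} := by
        rcases lt_or_gt_of_ne (hc1 i) with hneg | hpos
        · have hjc : χ j c < 0 := by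
            by_contra h; push Not at h; nlinarith
          constructor
          · refine (ssubset_iff_of_subset hsub1).mpr ⟨j, hjD, fun h => ?_⟩
            have h' : χ j a.1 * χ j c < 0 := h
            have := mul_pos_of_neg_of_neg hja' hjc
            linarith
          · refine (ssubset_iff_of_subset hsub2).mpr ⟨i, hiD, fun h => ?_⟩
            have h' : χ i c * χ i b.1 < 0 := h
            have := mul_pos_of_neg_of_neg hneg hib'
            linarith
        · have hjc : 0 < χ j c := by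
            by_contra h; push Not at h; nlinarith
          constructor
          · refine (ssubset_iff_of_subset hsub1).mpr ⟨i, hiD, fun h => ?_⟩
            have h' : χ i a.1 * χ i c < 0 := h
            have := mul_pos hia hpos
            linarith
          · refine (ssubset_iff_of_subset hsub2).mpr ⟨j, hjD, fun h => ?_⟩
            have h' : χ j c * χ j b.1 < 0 := h
            have := mul_pos hjc hjb
            linarith
      have hl1 := Set.ncard_lt_ncard hss.1 (Set.toFinite _)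
      have hl2 := Set.ncard_lt_ncard hss.2 (Set.toFinite _)
      exact Relation.EqvGen.trans _ ⟨c, hc1⟩ _ (ih a ⟨c, hc1⟩ (by
        show {l | χ l a.1 * χ l c < 0}.ncard ≤ n
        omega)) (ih ⟨c, hc1⟩ b (by
        show {l | χ l c * χ l b.1 < 0}.ncard ≤ n
        omega))
  intro a b
  exact key _ a b le_rfl

end conn

section tns

variable {E : Type*} [NormedAddCommGroup E] [NormedSpace ℝ E]
  {M : Type*} [TopologicalSpace M] [ChartedSpace E M]

/-- the sum of the `F j` with `χ j (a) > 0` -/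
noncomputable def posField {G J : Type*} [AddCommGroup G] (χ : J → G →+ ℝ)
    (F : J → ∀ x : M, Submodule ℝ (TangentSpace 𝓘(ℝ, E) x)) (a : G) (x : M) :
    Submodule ℝ (TangentSpace 𝓘(ℝ, E) x) := ⨆ j : {j // 0 < χ j a}, F j x

/-- the sum of the `F j` with `χ j (a) < 0` -/
noncomputable def negField {G J : Type*} [AddCommGroup G] (χ : J → G →+ ℝ)
    (F : J → ∀ x : M, Submodule ℝ (TangentSpace 𝓘(ℝ, E) x)) (a : G) (x : M) :
    Submodule ℝ (TangentSpace 𝓘(ℝ, E) x) := ⨆ j : {j // χ j a < 0}, F j x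

theorem posField_mono {G J : Type*} [AddCommGroup G] (χ : J → G →+ ℝ)
    (F : J → ∀ x : M, Submodule ℝ (TangentSpace 𝓘(ℝ, E) x)) {a b : G}
    (h : ∀ l, 0 < χ l a → 0 < χ l b) (x : M) : posField χ F a x ≤ posField χ F b x := by
  unfold posField
  apply iSup_le
  rintro ⟨j, hj⟩
  exact le_iSup (fun j : {j // 0 < χ j b} => F j x) ⟨j, h j hj⟩

theorem negField_le {G J : Type*} [AddCommGroup G] (χ : J → G →+ ℝ)
    (F : J → ∀ x : M, Submodule ℝ (TangentSpace 𝓘(ℝ, E) x)) {a b : G}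
    (h : ∀ l, χ l a < 0 → 0 < χ l b) (x : M) : negField χ F a x ≤ posField χ F b x := by
  unfold posField negField
  apply iSup_le
  rintro ⟨j, hj⟩
  exact le_iSup (fun j : {j // 0 < χ j b} => F j x) ⟨j, h j hj⟩

end tns

section main

variable {E : Type*} [NormedAddCommGroup E] [NormedSpace ℝ E] [FiniteDimensional ℝ E]
  {M : Type*} [TopologicalSpace M] [T2Space M] [CompactSpace M] [ConnectedSpace M]
  [ChartedSpace E M] [IsManifold 𝓘(ℝ, E) ∞ M]

theorem tns_main {G J : Type*} [AddCommGroup G] [Finite J]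
    (α : G → Diffeomorph 𝓘(ℝ, E) 𝓘(ℝ, E) M M 1) (hα : ∀ a b x, α (a + b) x = α a (α b x))
    (χ : J → G →+ ℝ) (F : J → ∀ x : M, Submodule ℝ (TangentSpace 𝓘(ℝ, E) x))
    (hTNS : ∀ i j, ∀ c : ℝ, 0 < c → ∃ a, χ i a ≠ -c * χ j a)
    (hW : ∀ a, (∀ l, χ l a ≠ 0) → ∃ b, (∀ l, 0 < χ l a * χ l b) ∧
      IsAnosov (α b) (negField χ F b) (posField χ F b))
    (a : G) (ha : ∀ l, χ l a ≠ 0) (hA : IsAnosov (α a) (negField χ F a) (posField χ F a)) :
    TopTransitive (α a) := by
  let ι := {b : G // (∀ l, χ l b ≠ 0) ∧ IsAnosov (α b) (negField χ F b) (posField χ F b)}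
  have hrep : ∀ a : {a : G // ∀ l, χ l a ≠ 0}, ∃ i : ι, ∀ l, 0 < χ l a.1 * χ l i.1 := by
    rintro ⟨a, ha⟩
    obtain ⟨b, hb1, hb2⟩ := hW a ha
    exact ⟨⟨b, fun l h => by
      have := hb1 l
      rw [h, mul_zero] at this
      exact lt_irrefl _ this, hb2⟩, hb1⟩
  choose r hr using hrep
  have hpos1 : ∀ a l, 0 < χ l (a : {a : G // ∀ l, χ l a ≠ 0}).1 → 0 < χ l (r a).1 :=
    fun a l h => pos_of_mul_pos_left' h (hr a l)
  have hpos2 : ∀ a l, 0 < χ l (r a).1 → 0 < χ l (a : {a : G // ∀ l, χ l a ≠ 0}).1 :=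
    fun a l h => pos_of_mul_pos_left' h (by rw [mul_comm]; exact hr a l)
  have hcomm : ∀ (i j : ι) (x : M), α i.1 (α j.1 x) = α j.1 (α i.1 x) := by
    intro i j x
    rw [← hα, ← hα, add_comm]
  let R : ι → ι → Prop := fun i j => (∀ x, α i.1 (α j.1 x) = α j.1 (α i.1 x)) ∧
    ∀ x, posField χ F i.1 x ≤ posField χ F j.1 x
  have hR : ∀ i j : ι, (∀ l, 0 < χ l i.1 → 0 < χ l j.1) → R i j := fun i j h =>
    ⟨hcomm i j, posField_mono χ F h⟩
  have hconn : ∀ i j : ι, Relation.EqvGen R i j := by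
    intro i j
    have h1 : ∀ a b : {a : G // ∀ l, χ l a ≠ 0}, Relation.EqvGen R (r a) (r b) := by
      intro a b
      have h2 := reg_conn χ hTNS a b
      induction h2 with
      | rel a b h => exact Relation.EqvGen.rel _ _ (hR _ _ fun l hl =>
          hpos1 b l (h l (hpos2 a l hl)))
      | refl a => exact Relation.EqvGen.refl _
      | symm a b _ ih => exact Relation.EqvGen.symm _ _ ih
      | trans a b c _ _ ih1 ih2 => exact Relation.EqvGen.trans _ _ _ ih1 ih2
    have h3 : ∀ i : ι, Relation.EqvGen R i (r ⟨i.1, i.2.1⟩) := fun i =>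
      Relation.EqvGen.rel _ _ (hR _ _ fun l hl => hpos1 ⟨i.1, i.2.1⟩ l hl)
    exact Relation.EqvGen.trans _ _ _ (h3 i)
      (Relation.EqvGen.trans _ _ _ (h1 _ _) (Relation.EqvGen.symm _ _ (h3 j)))
  have hspan : ∀ x, ⨆ i : ι, posField χ F i.1 x = ⊤ := by
    intro x
    rw [eq_top_iff, ← (hA.isCompl x).sup_eq_top]
    have hna : ∀ l, χ l (-a) ≠ 0 := fun l => by
      rw [map_neg]; exact neg_ne_zero.mpr (ha l)
    apply sup_le
    · refine le_trans (negField_le χ F (b := (r ⟨-a, hna⟩).1) ?_ x)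
        (le_iSup (fun i : ι => posField χ F i.1 x) (r ⟨-a, hna⟩))
      intro l hl
      apply hpos1 ⟨-a, hna⟩ l
      show 0 < χ l (-a)
      rw [map_neg]; linarith
    · exact le_iSup (fun i : ι => posField χ F i.1 x) ⟨a, ha, hA⟩
  exact man_main (fun i : ι => α i.1) (fun i => negField χ F i.1) (fun i => posField χ F i.1)
    (fun i => i.2.2) hconn hspan ⟨a, ha, hA⟩

end main

end Pool.Agent.H789R2.AN
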