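import Pool.Agent.H66.L.S8.H789R2.AN.Min

set_option autoImplicit false

open Filter Topology Set Metric

namespace Pool.Agent.H789R2.AN

variable {X : Type*} [MetricSpace X]

theorem closure_sat {g : X ≃ₜ X} {c : ℝ} (h : LP g c) {S : Set X}
    (hS : ∀ x ∈ S, ∀ y, WS g.symm x y → y ∈ S) :
    ∀ x ∈ closure S, ∀ y, WS g.symm x y → y ∈ closure S := by
  intro x hx y hxy
  rw [Metric.mem_closure_iff]
  intro η hη
  set ε := min (η / 2) c with hε
  have hε0 : 0 < ε := lt_min (half_pos hη) h.c_pos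
  obtain ⟨δ, hδ, hlp⟩ := h.lp ε hε0
  obtain ⟨m, hm⟩ := hxy.eventually_lt (half_pos hδ)
  have h1 := hm m le_rfl
  have h2 : {s | dist (g.symm^[m] s) (g.symm^[m] x) < δ / 2} ∈ 𝓝 x := by
    have hcont : Continuous fun s => dist (g.symm^[m] s) (g.symm^[m] x) :=
      (g.symm.continuous.iterate m).dist continuous_const
    exact (isOpen_lt hcont continuous_const).mem_nhds (by
      show dist (g.symm^[m] x) (g.symm^[m] x) < δ / 2
      rw [dist_self]; linarith)
  obtain ⟨s, hs1, hs2⟩ := mem_closure_iff_nhds.mp hx _ h2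
  have h3 : dist (g.symm^[m] y) (g.symm^[m] s) < δ := by
    have := dist_triangle (g.symm^[m] y) (g.symm^[m] x) (g.symm^[m] s)
    rw [dist_comm (g.symm^[m] y) (g.symm^[m] x), dist_comm (g.symm^[m] x) (g.symm^[m] s)] at this
    have hs1' : dist (g.symm^[m] s) (g.symm^[m] x) < δ / 2 := hs1
    linarith
  obtain ⟨z, hz1, hz2⟩ := hlp _ _ h3
  refine ⟨g^[m] z, ?_, ?_⟩
  · apply hS s hs2
    have h4 : WS g.symm (g.symm^[m] s) z :=
      WS.of_SR (h.cU _ _ (hz2.mono (min_le_right _ _)))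
    rw [← WS.iter m, iterL]
    exact h4
  · have h4 := hz1 m
    rw [iterR] at h4
    have : ε ≤ η / 2 := min_le_left _ _
    linarith

/-- **Transitivity** when the whole space is the only attractor. -/
theorem transitive_of_unique [CompactSpace X] {g : X ≃ₜ X} {c : ℝ} (h : LP g c)
    (hun : ∀ A, IsAtt g A → A = univ) (U V : Set X) (hU : IsOpen U) (hUn : U.Nonempty)
    (hV : IsOpen V) (hVn : V.Nonempty) : ∃ n : ℕ, (g^[n] '' U ∩ V).Nonempty := by
  obtain ⟨x, hx⟩ := hUn
  -- the omega-limit set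
  set ω : Set X := {y | MapClusterPt y atTop (fun n : ℕ => g^[n] x)} with hω
  have hωne : ω.Nonempty := by
    obtain ⟨y, hy⟩ := exists_clusterPt_of_compactSpace (map (fun n : ℕ => g^[n] x) atTop)
    exact ⟨y, hy⟩
  have hωchar : ∀ y, y ∈ ω ↔ ∀ W ∈ 𝓝 y, ∀ N : ℕ, ∃ n ≥ N, g^[n] x ∈ W := by
    intro y
    rw [hω, mem_setOf_eq, mapClusterPt_iff_frequently]
    exact forall₂_congr fun W _ => frequently_atTop
  have hωinv : ∀ y, g y ∈ ω ↔ y ∈ ω := by
    intro y
    rw [hωchar, hωchar]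
    constructor
    · intro hy W hW N
      have h1 : g.symm ⁻¹' W ∈ 𝓝 (g y) := by
        apply g.symm.continuous.continuousAt.preimage_mem_nhds
        rwa [g.symm_apply_apply]
      obtain ⟨n, hn, h2⟩ := hy _ h1 (N + 1)
      refine ⟨n - 1, by omega, ?_⟩
      have h3 : g^[n] x = g (g^[n - 1] x) := by
        rw [← Function.iterate_succ_apply' g (n - 1)]
        congr 1
        omega
      rw [mem_preimage, h3, g.symm_apply_apply] at h2
      exact h2
    · intro hy W hW N
      have h1 : g ⁻¹' W ∈ 𝓝 y := g.continuous.continuousAt.preimage_mem_nhds hW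
      obtain ⟨n, hn, h2⟩ := hy _ h1 N
      refine ⟨n + 1, by omega, ?_⟩
      rw [Function.iterate_succ_apply']
      exact h2
  set S : Set X := {w | ∃ y ∈ ω, WS g.symm y w} with hS
  have hSsat : ∀ w ∈ S, ∀ w', WS g.symm w w' → w' ∈ S := by
    rintro w ⟨y, hy, hyw⟩ w' hww'
    exact ⟨y, hy, hyw.trans hww'⟩
  have hSinv : ∀ w, g w ∈ S ↔ w ∈ S := by
    intro w
    constructor
    · rintro ⟨y, hy, hyw⟩
      refine ⟨g.symm y, (inv_symm hωinv y).mpr hy, ?_⟩
      have := hyw.mapIter (φ := g.symm) (fun _ => rfl) 1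
      simpa using this
    · rintro ⟨y, hy, hyw⟩
      refine ⟨g y, (hωinv y).mpr hy, ?_⟩
      rw [← WS.iter 1]
      simpa using hyw
  have hatt : IsAtt g (closure S) := by
    refine ⟨isClosed_closure, ?_, ?_, closure_sat h hSsat⟩
    · obtain ⟨y, hy⟩ := hωne
      exact ⟨y, subset_closure ⟨y, hy, WS.refl _ _⟩⟩
    · intro w
      have e1 : g ⁻¹' S = S := by
        ext w
        exact hSinv w
      have e2 := g.preimage_closure S
      rw [e1] at e2
      rw [← mem_preimage, e2]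
  have hcl := hun _ hatt
  obtain ⟨v, hv⟩ := hVn
  have hvS : v ∈ closure S := by rw [hcl]; trivial
  obtain ⟨w, hwV, y, hy, hyw⟩ := mem_closure_iff.mp hvS V hV hv
  obtain ⟨η, hη, hball⟩ := Metric.isOpen_iff.mp hV w hwV
  obtain ⟨η', hη', hball'⟩ := Metric.isOpen_iff.mp hU x hx
  set ε := min (η / 2) c with hε
  have hε0 : 0 < ε := lt_min (half_pos hη) h.c_pos
  obtain ⟨δ, hδ, hlp⟩ := h.lp ε hε0
  obtain ⟨m, hm⟩ := hyw.eventually_lt (half_pos hδ)
  have h1 := hm m le_rfl
  have h5 : Tendsto (fun n : ℕ => c * (1 / 2 : ℝ) ^ n) atTop (𝓝 0) := by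
    have := (tendsto_pow_atTop_nhds_zero_of_lt_one (by norm_num : (0:ℝ) ≤ 1 / 2)
      (by norm_num)).const_mul c
    simpa using this
  obtain ⟨N, hN⟩ := eventually_atTop.mp ((tendsto_order.mp h5).2 η' hη')
  have h2 : {y' | dist (g.symm^[m] y') (g.symm^[m] y) < δ / 2} ∈ 𝓝 y := by
    have hcont : Continuous fun s => dist (g.symm^[m] s) (g.symm^[m] y) :=
      (g.symm.continuous.iterate m).dist continuous_const
    exact (isOpen_lt hcont continuous_const).mem_nhds (by
      show dist (g.symm^[m] y) (g.symm^[m] y) < δ / 2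
      rw [dist_self]; linarith)
  obtain ⟨n, hn, h3⟩ := (hωchar y).mp hy _ h2 (m + N)
  have e1 : g.symm^[m] (g^[n] x) = g^[n - m] x := by
    have : g^[n] x = g^[m] (g^[n - m] x) := by
      rw [← Function.iterate_add_apply]
      congr 1
      omega
    rw [this, iterL]
  have h3' : dist (g^[n - m] x) (g.symm^[m] y) < δ / 2 := by
    rw [← e1]; exact h3
  have h4 : dist (g.symm^[m] w) (g^[n - m] x) < δ := by
    have := dist_triangle (g.symm^[m] w) (g.symm^[m] y) (g^[n - m] x)
    rw [dist_comm (g.symm^[m] w) (g.symm^[m] y), dist_comm (g.symm^[m] y) (g^[n - m] x)] at this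
    linarith
  obtain ⟨z, hz1, hz2⟩ := hlp _ _ h4
  have hz2' := h.cU _ _ (hz2.mono (min_le_right _ _)) (n - m)
  rw [iterL] at hz2'
  have hz3 := lt_of_le_of_lt hz2' (hN (n - m) (by omega))
  refine ⟨n, g^[n] (g.symm^[n - m] z), ⟨_, hball' ?_, rfl⟩, hball ?_⟩
  · rw [Metric.mem_ball, dist_comm]
    exact hz3
  · have e2 : g^[n] (g.symm^[n - m] z) = g^[m] z := by
      have : g^[n] (g.symm^[n - m] z) = g^[m] (g^[n - m] (g.symm^[n - m] z)) := by
        rw [← Function.iterate_add_apply g m (n - m)]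
        congr 1
        omega
      rw [this, iterR]
    rw [e2, Metric.mem_ball, dist_comm]
    have h6 := hz1 m
    rw [iterR] at h6
    have : ε ≤ η / 2 := min_le_left _ _
    linarith

end Pool.Agent.H789R2.AN
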